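import Pool.Agent.Q248.MN.Limits

/-!
# The normalized collision counts of multinomial coefficients tend to infinity
-/

namespace Pool.Agent.Results.MP_dccd56_co.BothDiverge

open Pool.Agent.Q248.MN Filter

/-- Both `a(n) = C(n) / (n² log n)` and `b(n) = D(n) / (n^{3/2} √(log n))` tend to infinity. -/
theorem result :
    Tendsto (fun n : ℕ => (CC n : ℝ) / ((n : ℝ) ^ 2 * Real.log n)) atTop atTop ∧
    Tendsto (fun n : ℕ => (DD n : ℝ) / ((n : ℝ) ^ (3 / 2 : ℝ) * Real.sqrt (Real.log n)))
      atTop atTop :=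
  ⟨tendsto_C, tendsto_D⟩

end Pool.Agent.Results.MP_dccd56_co.BothDiverge
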